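import Pool.Agent.Lib_helper89.MC.EN

/-! Project MC (MP_b08f5f_an, microcanonical), block PO: strict polarization. -/

set_option autoImplicit false

namespace Pool.Agent.Lib_helper68.MC

open MeasureTheory Filter Topology Set
open scoped ComplexConjugate ENNReal NNReal
open Pool.Agent.Lib_helper25.PV (Conf vel Motion centre inertia NC VFlow)
open Pool.Agent.Lib_helper12.HE (ham rad nrm Gam sig shell turn one LimAvg)

noncomputable section

/-- the polarization with respect to the real axis -/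
def PO_pol (ρ : ℂ → ℝ) (x : ℂ) : ℝ :=
  if 0 < x.im then max (ρ x) (ρ (conj x)) else min (ρ x) (ρ (conj x))

theorem PO_mp : MeasurePreserving (fun x : ℂ => conj x) volume volume :=
  Complex.conjLIE.measurePreserving

theorem PO_me : MeasurableEmbedding (fun x : ℂ => conj x) :=
  Complex.conjLIE.toHomeomorph.measurableEmbedding

theorem PO_int_conj (F : ℂ → ℝ) : ∫ x, F (conj x) = ∫ x, F x :=
  PO_mp.integral_comp PO_me F

theorem PO_integrable_conj {F : ℂ → ℝ} (h : Integrable F) : Integrable fun x => F (conj x) :=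
  (PO_mp.integrable_comp_emb PO_me).2 h

/-- functions with the same symmetric part have the same integral -/
theorem PO_sym {F G : ℂ → ℝ} (hF : Integrable F) (hG : Integrable G)
    (h : ∀ x, F x + F (conj x) = G x + G (conj x)) : ∫ x, F x = ∫ x, G x := by
  have h1 : ∫ x, (F x + F (conj x)) = 2 * ∫ x, F x := by
    rw [integral_add hF (PO_integrable_conj hF), PO_int_conj F]
    ring
  have h2 : ∫ x, (G x + G (conj x)) = 2 * ∫ x, G x := by
    rw [integral_add hG (PO_integrable_conj hG), PO_int_conj G]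
    ring
  have h3 : ∫ x, (F x + F (conj x)) = ∫ x, (G x + G (conj x)) := by
    refine integral_congr_ae (ae_of_all _ fun x => h x)
  linarith

/-- either the pair of values is kept or it is exchanged -/
theorem PO_cases (ρ : ℂ → ℝ) (x : ℂ) :
    (PO_pol ρ x = ρ x ∧ PO_pol ρ (conj x) = ρ (conj x)) ∨
      (PO_pol ρ x = ρ (conj x) ∧ PO_pol ρ (conj x) = ρ x) := by
  unfold PO_pol
  have hc : conj (conj x) = x := Complex.conj_conj x
  rw [hc, Complex.conj_im]
  rcases lt_trichotomy x.im 0 with h | h | h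
  · rw [if_neg (not_lt.2 h.le), if_pos (by linarith)]
    rcases le_total (ρ x) (ρ (conj x)) with h' | h'
    · left; exact ⟨min_eq_left h', max_eq_left h'⟩
    · right; exact ⟨min_eq_right h', max_eq_right h'⟩
  · have hx : conj x = x := Complex.conj_eq_iff_im.2 h
    rw [h, hx]
    left
    simp
  · rw [if_pos h, if_neg (by linarith)]
    rcases le_total (ρ x) (ρ (conj x)) with h' | h'
    · right; exact ⟨max_eq_right h', min_eq_right h'⟩
    · left; exact ⟨max_eq_left h', min_eq_left h'⟩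

theorem PO_comp (ρ g : ℂ → ℝ) (φ : ℝ → ℝ) (hg : ∀ x, g (conj x) = g x) (x : ℂ) :
    g x * φ (PO_pol ρ x) + g (conj x) * φ (PO_pol ρ (conj x)) =
      g x * φ (ρ x) + g (conj x) * φ (ρ (conj x)) := by
  rw [hg x]
  rcases PO_cases ρ x with ⟨h1, h2⟩ | ⟨h1, h2⟩
  · rw [h1, h2]
  · rw [h1, h2]
    ring

theorem PO_meas {ρ : ℂ → ℝ} (h : Measurable ρ) : Measurable (PO_pol ρ) := by
  have h1 : Measurable fun x : ℂ => ρ (conj x) := h.comp Complex.continuous_conj.measurable
  unfold PO_pol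
  refine Measurable.ite ?_ (h.max h1) (h.min h1)
  exact measurableSet_lt measurable_const Complex.measurable_im

/-- integrability of `g φ(ρ')` -/
theorem PO_int {ρ g : ℂ → ℝ} {φ : ℝ → ℝ} (hρ : Measurable ρ) (hg : Measurable g)
    (hφ : Measurable φ) (hgs : ∀ x, g (conj x) = g x) (h : Integrable fun x => g x * φ (ρ x)) :
    Integrable fun x => g x * φ (PO_pol ρ x) := by
  have h1 := PO_integrable_conj h
  refine Integrable.mono' (h.norm.add h1.norm) ?_ (ae_of_all _ fun x => ?_)
  · exact (hg.mul (hφ.comp (PO_meas hρ))).aestronglyMeasurable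
  · simp only [Pi.add_apply]
    rcases PO_cases ρ x with ⟨h2, -⟩ | ⟨h2, -⟩
    · rw [h2]
      exact le_add_of_nonneg_right (norm_nonneg _)
    · rw [h2, hgs x]
      exact le_add_of_nonneg_left (norm_nonneg _)

theorem PO_eq {ρ g : ℂ → ℝ} {φ : ℝ → ℝ} (hρ : Measurable ρ) (hg : Measurable g)
    (hφ : Measurable φ) (hgs : ∀ x, g (conj x) = g x) (h : Integrable fun x => g x * φ (ρ x)) :
    ∫ x, g x * φ (PO_pol ρ x) = ∫ x, g x * φ (ρ x) :=
  PO_sym (PO_int hρ hg hφ hgs h) h fun x => PO_comp ρ g φ hgs x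

theorem PO_dens {ρ : ℂ → ℝ} (h : Dens ρ) : Dens (PO_pol ρ) := by
  have i1 : Integrable fun x => (1 : ℝ) * ρ x := by simpa using h.int
  have i2 : Integrable fun x => (1 : ℝ) * (ρ x * Real.log (ρ x)) := by simpa using h.ent
  refine ⟨PO_meas h.meas, fun x => ?_, ?_, ?_, ?_, ?_⟩
  · rcases PO_cases ρ x with ⟨h2, -⟩ | ⟨h2, -⟩
    · rw [h2]; exact h.nonneg _
    · rw [h2]; exact h.nonneg _
  · have := PO_int (g := fun _ => 1) (φ := fun u => u) h.meas measurable_const measurable_id
      (fun _ => rfl) i1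
    simpa using this
  · have := PO_eq (g := fun _ => 1) (φ := fun u => u) h.meas measurable_const measurable_id
      (fun _ => rfl) i1
    simp only [one_mul] at this
    rw [this, h.one]
  · have := PO_int (g := fun _ => 1) (φ := fun u => u * Real.log u) h.meas measurable_const
      (by fun_prop) (fun _ => rfl) i2
    simpa using this
  · exact PO_int (g := fun x => ‖x‖ ^ 2) (φ := fun u => u) h.meas (by fun_prop) measurable_id
      (fun x => by rw [Complex.norm_conj]) h.mom

theorem PO_sent {ρ : ℂ → ℝ} (h : Dens ρ) : Sent (PO_pol ρ) = Sent ρ := by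
  have i2 : Integrable fun x => (1 : ℝ) * (ρ x * Real.log (ρ x)) := by simpa using h.ent
  have := PO_eq (g := fun _ => 1) (φ := fun u => u * Real.log u) h.meas measurable_const
      (by fun_prop) (fun _ => rfl) i2
  simp only [one_mul] at this
  unfold Sent
  rw [this]

theorem PO_mo {ρ : ℂ → ℝ} (h : Dens ρ) : mo (PO_pol ρ) = mo ρ :=
  PO_eq (g := fun x => ‖x‖ ^ 2) (φ := fun u => u) h.meas (by fun_prop) measurable_id
      (fun x => by rw [Complex.norm_conj]) h.mom

/-- the symmetrised integrand of the energy -/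
def PO_D (ρ : ℂ → ℝ) (p : ℂ × ℂ) : ℝ :=
  Real.log ‖p.1 - p.2‖ * (ρ p.1 * ρ p.2 + ρ (conj p.1) * ρ (conj p.2)) +
    Real.log ‖conj p.1 - p.2‖ * (ρ (conj p.1) * ρ p.2 + ρ p.1 * ρ (conj p.2))

theorem PO_D_int {ρ : ℂ → ℝ} (h : Dens ρ) : Integrable (PO_D ρ) ∧
    ∫ p, PO_D ρ p = 4 * ∫ p : ℂ × ℂ, Real.log ‖p.1 - p.2‖ * (ρ p.1 * ρ p.2) := by
  set H : ℂ × ℂ → ℝ := fun p => Real.log ‖p.1 - p.2‖ * (ρ p.1 * ρ p.2) with hH
  have hi : Integrable H := EN_int h h
  have m1 : MeasurePreserving (fun p : ℂ × ℂ => (conj p.1, p.2)) volume volume :=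
    PO_mp.prod (MeasurePreserving.id volume)
  have m2 : MeasurePreserving (fun p : ℂ × ℂ => (p.1, conj p.2)) volume volume :=
    (MeasurePreserving.id volume).prod PO_mp
  have m3 : MeasurePreserving (fun p : ℂ × ℂ => (conj p.1, conj p.2)) volume volume :=
    PO_mp.prod PO_mp
  have e1 : MeasurableEmbedding (fun p : ℂ × ℂ => (conj p.1, p.2)) :=
    (Complex.conjLIE.toHomeomorph.prodCongr (Homeomorph.refl ℂ)).measurableEmbedding
  have e2 : MeasurableEmbedding (fun p : ℂ × ℂ => (p.1, conj p.2)) :=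
    ((Homeomorph.refl ℂ).prodCongr Complex.conjLIE.toHomeomorph).measurableEmbedding
  have e3 : MeasurableEmbedding (fun p : ℂ × ℂ => (conj p.1, conj p.2)) :=
    (Complex.conjLIE.toHomeomorph.prodCongr Complex.conjLIE.toHomeomorph).measurableEmbedding
  have i1 : Integrable fun p : ℂ × ℂ => H (conj p.1, p.2) := (m1.integrable_comp_emb e1).2 hi
  have i2 : Integrable fun p : ℂ × ℂ => H (p.1, conj p.2) := (m2.integrable_comp_emb e2).2 hi
  have i3 : Integrable fun p : ℂ × ℂ => H (conj p.1, conj p.2) := (m3.integrable_comp_emb e3).2 hi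
  have i01 : Integrable fun p : ℂ × ℂ => H p + H (conj p.1, p.2) := hi.add i1
  have i23 : Integrable fun p : ℂ × ℂ => H (p.1, conj p.2) + H (conj p.1, conj p.2) := i2.add i3
  have j1 := m1.integral_comp e1 H
  have j2 := m2.integral_comp e2 H
  have j3 := m3.integral_comp e3 H
  have hD : PO_D ρ = fun p => H p + H (conj p.1, p.2) + (H (p.1, conj p.2) + H (conj p.1, conj p.2)) := by
    funext p
    have n1 : ‖p.1 - conj p.2‖ = ‖conj p.1 - p.2‖ := by
      rw [← Complex.norm_conj (p.1 - conj p.2), map_sub, Complex.conj_conj]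
    have n2 : ‖conj p.1 - conj p.2‖ = ‖p.1 - p.2‖ := by
      rw [← map_sub, Complex.norm_conj]
    simp only [hH, PO_D]
    rw [n1, n2]
    ring
  constructor
  · rw [hD]
    exact i01.add i23
  · rw [hD]
    beta_reduce
    rw [integral_add i01 i23, integral_add hi i1, integral_add i2 i3, j1, j2, j3]
    ring

theorem PO_norm_lt {x y : ℂ} (h : 0 < x.im * y.im) : ‖x - y‖ < ‖conj x - y‖ := by
  have h1 : ‖x - y‖ ^ 2 < ‖conj x - y‖ ^ 2 := by
    rw [← Complex.normSq_eq_norm_sq, ← Complex.normSq_eq_norm_sq, Complex.normSq_apply,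
      Complex.normSq_apply]
    simp only [Complex.sub_re, Complex.sub_im, Complex.conj_re, Complex.conj_im]
    nlinarith
  exact lt_of_pow_lt_pow_left₀ 2 (norm_nonneg _) h1

theorem PO_norm_gt {x y : ℂ} (h : x.im * y.im < 0) : ‖conj x - y‖ < ‖x - y‖ := by
  have := PO_norm_lt (x := conj x) (y := y) (by rw [Complex.conj_im]; linarith)
  rwa [Complex.conj_conj] at this

/-- rearrangement of four numbers -/
theorem PO_rearr (a a' b b' : ℝ) :
    a * b + a' * b' ≤ max a a' * max b b' + min a a' * min b b' := by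
  rcases le_total a a' with h | h <;> rcases le_total b b' with h' | h'
  · rw [max_eq_right h, max_eq_right h', min_eq_left h, min_eq_left h']; linarith
  · rw [max_eq_right h, max_eq_left h', min_eq_left h, min_eq_right h']
    nlinarith [mul_nonneg (sub_nonneg.2 h) (sub_nonneg.2 h')]
  · rw [max_eq_left h, max_eq_right h', min_eq_right h, min_eq_left h']
    nlinarith [mul_nonneg (sub_nonneg.2 h) (sub_nonneg.2 h')]
  · rw [max_eq_left h, max_eq_left h', min_eq_right h, min_eq_right h']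

theorem PO_rearr' (a a' b b' : ℝ) :
    max a a' * min b b' + min a a' * max b b' ≤ a * b + a' * b' := by
  rcases le_total a a' with h | h <;> rcases le_total b b' with h' | h'
  · rw [max_eq_right h, max_eq_right h', min_eq_left h, min_eq_left h']
    nlinarith [mul_nonneg (sub_nonneg.2 h) (sub_nonneg.2 h')]
  · rw [max_eq_right h, max_eq_left h', min_eq_left h, min_eq_right h']; linarith
  · rw [max_eq_left h, max_eq_right h', min_eq_right h, min_eq_left h']
  · rw [max_eq_left h, max_eq_left h', min_eq_right h, min_eq_right h']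
    nlinarith [mul_nonneg (sub_nonneg.2 h) (sub_nonneg.2 h')]

/-- the difference of the symmetrised integrands -/
theorem PO_diff (ρ : ℂ → ℝ) (p : ℂ × ℂ) : PO_D ρ p - PO_D (PO_pol ρ) p =
    (Real.log ‖conj p.1 - p.2‖ - Real.log ‖p.1 - p.2‖) *
      ((PO_pol ρ p.1 * PO_pol ρ p.2 + PO_pol ρ (conj p.1) * PO_pol ρ (conj p.2)) -
        (ρ p.1 * ρ p.2 + ρ (conj p.1) * ρ (conj p.2))) := by
  have hx : PO_pol ρ p.1 + PO_pol ρ (conj p.1) = ρ p.1 + ρ (conj p.1) := by
    rcases PO_cases ρ p.1 with ⟨h1, h2⟩ | ⟨h1, h2⟩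
    · rw [h1, h2]
    · rw [h1, h2]; ring
  have hy : PO_pol ρ p.2 + PO_pol ρ (conj p.2) = ρ p.2 + ρ (conj p.2) := by
    rcases PO_cases ρ p.2 with ⟨h1, h2⟩ | ⟨h1, h2⟩
    · rw [h1, h2]
    · rw [h1, h2]; ring
  have hxy : (PO_pol ρ p.1 + PO_pol ρ (conj p.1)) * (PO_pol ρ p.2 + PO_pol ρ (conj p.2)) =
      (ρ p.1 + ρ (conj p.1)) * (ρ p.2 + ρ (conj p.2)) := by rw [hx, hy]
  unfold PO_D
  linear_combination Real.log ‖conj p.1 - p.2‖ * (-1) * hxy

theorem PO_pol_up {ρ : ℂ → ℝ} {x : ℂ} (h : 0 < x.im) : PO_pol ρ x = max (ρ x) (ρ (conj x)) ∧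
    PO_pol ρ (conj x) = min (ρ x) (ρ (conj x)) := by
  unfold PO_pol
  rw [if_pos h, Complex.conj_im, if_neg (by linarith), Complex.conj_conj]
  exact ⟨rfl, min_comm _ _⟩

theorem PO_pol_dn {ρ : ℂ → ℝ} {x : ℂ} (h : x.im < 0) : PO_pol ρ x = min (ρ x) (ρ (conj x)) ∧
    PO_pol ρ (conj x) = max (ρ x) (ρ (conj x)) := by
  unfold PO_pol
  rw [if_neg (by linarith), Complex.conj_im, if_pos (by linarith), Complex.conj_conj]
  exact ⟨rfl, max_comm _ _⟩

theorem PO_nonneg (ρ : ℂ → ℝ) {p : ℂ × ℂ} (h1 : p.1 ≠ p.2) (h2 : conj p.1 ≠ p.2) :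
    0 ≤ PO_D ρ p - PO_D (PO_pol ρ) p := by
  have n1 : 0 < ‖p.1 - p.2‖ := norm_pos_iff.2 (sub_ne_zero.2 h1)
  have n2 : 0 < ‖conj p.1 - p.2‖ := norm_pos_iff.2 (sub_ne_zero.2 h2)
  rw [PO_diff]
  have r1 := PO_rearr (ρ p.1) (ρ (conj p.1)) (ρ p.2) (ρ (conj p.2))
  have r2 := PO_rearr' (ρ p.1) (ρ (conj p.1)) (ρ p.2) (ρ (conj p.2))
  rcases lt_trichotomy p.1.im 0 with hx | hx | hx
  · rcases lt_trichotomy p.2.im 0 with hy | hy | hy
    · have hl := Real.log_lt_log n1 (PO_norm_lt (mul_pos_of_neg_of_neg hx hy))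
      rw [(PO_pol_dn hx).1, (PO_pol_dn hx).2, (PO_pol_dn hy).1, (PO_pol_dn hy).2]
      exact mul_nonneg (by linarith) (by linarith)
    · have hc : conj p.2 = p.2 := Complex.conj_eq_iff_im.2 hy
      have : PO_pol ρ p.2 = ρ p.2 := by
        rcases PO_cases ρ p.2 with ⟨h, -⟩ | ⟨h, -⟩
        · exact h
        · rw [h, hc]
      rw [(PO_pol_dn hx).1, (PO_pol_dn hx).2, hc, this]
      have : min (ρ p.1) (ρ (conj p.1)) * ρ p.2 + max (ρ p.1) (ρ (conj p.1)) * ρ p.2 -
          (ρ p.1 * ρ p.2 + ρ (conj p.1) * ρ p.2) = 0 := by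
        have := min_add_max (ρ p.1) (ρ (conj p.1))
        linear_combination ρ p.2 * this
      rw [this, mul_zero]
    · have hl := Real.log_lt_log n2 (PO_norm_gt (mul_neg_of_neg_of_pos hx hy))
      rw [(PO_pol_dn hx).1, (PO_pol_dn hx).2, (PO_pol_up hy).1, (PO_pol_up hy).2]
      exact mul_nonneg_of_nonpos_of_nonpos (by linarith) (by linarith)
  · have hc : conj p.1 = p.1 := Complex.conj_eq_iff_im.2 hx
    rw [hc, sub_self, zero_mul]
  · rcases lt_trichotomy p.2.im 0 with hy | hy | hy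
    · have hl := Real.log_lt_log n2 (PO_norm_gt (mul_neg_of_pos_of_neg hx hy))
      rw [(PO_pol_up hx).1, (PO_pol_up hx).2, (PO_pol_dn hy).1, (PO_pol_dn hy).2]
      exact mul_nonneg_of_nonpos_of_nonpos (by linarith) (by linarith)
    · have hc : conj p.2 = p.2 := Complex.conj_eq_iff_im.2 hy
      have : PO_pol ρ p.2 = ρ p.2 := by
        rcases PO_cases ρ p.2 with ⟨h, -⟩ | ⟨h, -⟩
        · exact h
        · rw [h, hc]
      rw [(PO_pol_up hx).1, (PO_pol_up hx).2, hc, this]
      have : max (ρ p.1) (ρ (conj p.1)) * ρ p.2 + min (ρ p.1) (ρ (conj p.1)) * ρ p.2 -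
          (ρ p.1 * ρ p.2 + ρ (conj p.1) * ρ p.2) = 0 := by
        have := min_add_max (ρ p.1) (ρ (conj p.1))
        linear_combination ρ p.2 * this
      rw [this, mul_zero]
    · have hl := Real.log_lt_log n1 (PO_norm_lt (mul_pos hx hy))
      rw [(PO_pol_up hx).1, (PO_pol_up hx).2, (PO_pol_up hy).1, (PO_pol_up hy).2]
      exact mul_nonneg (by linarith) (by linarith)

/-- strict at `x, y` in the upper half plane with opposite orders -/
theorem PO_pos (ρ : ℂ → ℝ) {p : ℂ × ℂ} (h1 : p.1 ≠ p.2) (hx : 0 < p.1.im) (hy : 0 < p.2.im)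
    (ha : ρ (conj p.1) < ρ p.1) (hb : ρ p.2 < ρ (conj p.2)) :
    0 < PO_D ρ p - PO_D (PO_pol ρ) p := by
  have n1 : 0 < ‖p.1 - p.2‖ := norm_pos_iff.2 (sub_ne_zero.2 h1)
  rw [PO_diff, (PO_pol_up hx).1, (PO_pol_up hx).2, (PO_pol_up hy).1, (PO_pol_up hy).2,
    max_eq_left ha.le, min_eq_right ha.le, max_eq_right hb.le, min_eq_left hb.le]
  have hl := Real.log_lt_log n1 (PO_norm_lt (mul_pos hx hy))
  refine mul_pos (by linarith) ?_
  nlinarith [mul_pos (sub_pos.2 ha) (sub_pos.2 hb)]

/-- the set in the upper half plane where `ρ` is larger than `ρ ∘ conj` -/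
def PO_A (ρ : ℂ → ℝ) : Set ℂ := {x | 0 < x.im ∧ ρ (conj x) < ρ x}

theorem PO_A_meas {ρ : ℂ → ℝ} (h : Measurable ρ) : MeasurableSet (PO_A ρ) := by
  have h1 : Measurable fun x : ℂ => ρ (conj x) := h.comp Complex.continuous_conj.measurable
  exact (measurableSet_lt measurable_const Complex.measurable_im).inter (measurableSet_lt h1 h)

theorem PO_im_int {ρ : ℂ → ℝ} (h : Dens ρ) : Integrable fun x : ℂ => x.im * ρ x := by
  refine Integrable.mono' (EN_first h) ?_ (ae_of_all _ fun x => ?_)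
  · exact (Complex.measurable_im.mul h.meas).aestronglyMeasurable
  · rw [norm_mul, Real.norm_eq_abs, Real.norm_eq_abs, abs_of_nonneg (h.nonneg x)]
    exact mul_le_mul_of_nonneg_right (Complex.abs_im_le_norm x) (h.nonneg x)

theorem PO_mean {ρ : ℂ → ℝ} (h : Dens ρ) : ∫ x : ℂ, x.im * ρ x = (mean ρ).im := by
  have hi : Integrable fun x : ℂ => (ρ x : ℂ) * x := by
    refine Integrable.mono' (EN_first h) ?_ (ae_of_all _ fun x => ?_)
    · exact (Complex.measurable_ofReal.comp h.meas).aestronglyMeasurable.mul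
        measurable_id.aestronglyMeasurable
    · rw [norm_mul, Complex.norm_real, Real.norm_eq_abs, abs_of_nonneg (h.nonneg x), mul_comm]
  unfold mean
  have := integral_im hi
  simp only [RCLike.im_to_complex] at this
  rw [← this]
  refine integral_congr_ae (ae_of_all _ fun x => ?_)
  simp only [Complex.im_ofReal_mul]
  ring

/-- if `ρ ≤ ρ ∘ conj` a.e. on the upper half plane and the mean is real, then `ρ = ρ ∘ conj` -/
theorem PO_null {ρ : ℂ → ℝ} (h : Dens ρ) (hm : (mean ρ).im = 0)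
    (hA : volume (PO_A ρ) = 0) : (fun x => ρ (conj x)) =ᵐ[volume] ρ := by
  have hi := PO_im_int h
  have hic := PO_integrable_conj hi
  have hicn : Integrable fun x : ℂ => -((conj x).im * ρ (conj x)) := hic.neg
  have h0 : ∫ x : ℂ, (x.im * (ρ (conj x) - ρ x)) = 0 := by
    have e : (fun x : ℂ => x.im * (ρ (conj x) - ρ x)) =
        fun x => -((conj x).im * ρ (conj x)) - x.im * ρ x := by
      funext x
      rw [Complex.conj_im]
      ring
    rw [e, integral_sub hicn hi, integral_neg, PO_int_conj (fun x => x.im * ρ x), PO_mean h, hm]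
    simp
  have hnn : 0 ≤ᵐ[volume] fun x : ℂ => x.im * (ρ (conj x) - ρ x) := by
    have hA' : ∀ᵐ x : ℂ, x ∉ PO_A ρ := measure_eq_zero_iff_ae_notMem.1 hA
    have hA'' : ∀ᵐ x : ℂ, conj x ∉ PO_A ρ := PO_mp.quasiMeasurePreserving.ae hA'
    filter_upwards [hA', hA''] with x hx hx'
    simp only [Pi.zero_apply]
    rcases lt_trichotomy x.im 0 with h1 | h1 | h1
    · have : ¬ ρ x < ρ (conj x) := fun h2 => hx' ⟨by rw [Complex.conj_im]; linarith, by
        rw [Complex.conj_conj]; exact h2⟩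
      exact mul_nonneg_of_nonpos_of_nonpos h1.le (by linarith)
    · rw [h1, zero_mul]
    · have : ¬ ρ (conj x) < ρ x := fun h2 => hx ⟨h1, h2⟩
      exact mul_nonneg h1.le (by linarith)
  have hint : Integrable fun x : ℂ => x.im * (ρ (conj x) - ρ x) := by
    have e : (fun x : ℂ => x.im * (ρ (conj x) - ρ x)) =
        fun x => -((conj x).im * ρ (conj x)) - x.im * ρ x := by
      funext x
      rw [Complex.conj_im]
      ring
    rw [e]
    exact hicn.sub hi
  have hz := (integral_eq_zero_iff_of_nonneg_ae hnn hint).1 h0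
  have him : ∀ᵐ x : ℂ, x.im ≠ 0 := by
    have h1 : volume {x : ℂ | x.im = 0} = 0 := by
      have h2 : ({x : ℂ | x.im = 0} : Set ℂ) = (LinearMap.ker Complex.imLm : Submodule ℝ ℂ) := by
        ext x
        simp
      rw [h2]
      refine Measure.addHaar_submodule volume _ fun htop => ?_
      have : Complex.I ∈ (LinearMap.ker Complex.imLm : Submodule ℝ ℂ) := by rw [htop]; trivial
      simp at this
    exact measure_eq_zero_iff_ae_notMem.1 h1
  filter_upwards [hz, him] with x hx hx'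
  simp only [Pi.zero_apply, mul_eq_zero] at hx
  rcases hx with hx | hx
  · exact absurd hx hx'
  · linarith

theorem PO_strict {ρ : ℂ → ℝ} (h : Dens ρ) (hm : (mean ρ).im = 0)
    (hne : ¬ (fun x => ρ (conj x)) =ᵐ[volume] ρ) :
    ∃ ρ' : ℂ → ℝ, Dens ρ' ∧ Sent ρ' = Sent ρ ∧ mo ρ' = mo ρ ∧ En ρ ρ < En ρ' ρ' := by
  refine ⟨PO_pol ρ, PO_dens h, PO_sent h, PO_mo h, ?_⟩
  obtain ⟨hi, he⟩ := PO_D_int h
  obtain ⟨hi', he'⟩ := PO_D_int (PO_dens h)
  have hσ : MeasurableSet (PO_A ρ) := PO_A_meas h.meas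
  -- both orders occur
  have hA : volume (PO_A ρ) ≠ 0 := fun h0 => hne (PO_null h hm h0)
  set ρc : ℂ → ℝ := fun x => ρ (conj x) with hρc
  have hc : Dens ρc := by
    refine ⟨h.meas.comp Complex.continuous_conj.measurable, fun x => h.nonneg _,
      PO_integrable_conj h.int, ?_, PO_integrable_conj h.ent, ?_⟩
    · exact (PO_int_conj ρ).trans h.one
    · have := PO_integrable_conj h.mom
      simpa only [Complex.norm_conj] using this
  have hmc : (mean ρc).im = 0 := by
    rw [← PO_mean hc]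
    have e : (fun x : ℂ => x.im * ρc x) = fun x => -((conj x).im * ρ (conj x)) := by
      funext x
      rw [Complex.conj_im]
      ring
    rw [e, integral_neg, PO_int_conj (fun x => x.im * ρ x), PO_mean h, hm, neg_zero]
  have hB : volume (PO_A ρc) ≠ 0 := by
    intro h0
    have h1 := PO_null hc hmc h0
    refine hne ?_
    have h2 : (fun x => ρc (conj x)) = ρ := by
      funext x
      simp only [hρc, Complex.conj_conj]
    rw [h2] at h1
    exact h1.symm
  have hpos : 0 < ∫ p, (PO_D ρ p - PO_D (PO_pol ρ) p) := by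
    have hae : ∀ᵐ p : ℂ × ℂ, p.1 ≠ p.2 ∧ conj p.1 ≠ p.2 := by
      have h1 : ∀ g : ℂ → ℂ, Measurable g → ∀ᵐ p : ℂ × ℂ, g p.1 ≠ p.2 := by
        intro g hg
        have hm : MeasurableSet {p : ℂ × ℂ | g p.1 = p.2} :=
          measurableSet_eq_fun (hg.comp measurable_fst) measurable_snd
        have h2 : volume {p : ℂ × ℂ | g p.1 = p.2} = 0 := by
          rw [Measure.volume_eq_prod, Measure.measure_prod_null hm]
          refine ae_of_all _ fun x => ?_
          have : Prod.mk x ⁻¹' {p : ℂ × ℂ | g p.1 = p.2} = {g x} := by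
            ext y
            simp [eq_comm]
          change volume (Prod.mk x ⁻¹' {p : ℂ × ℂ | g p.1 = p.2}) = 0
          rw [this]
          simp
        exact measure_eq_zero_iff_ae_notMem.1 h2
      filter_upwards [h1 (fun x => x) measurable_id, h1 (fun x => conj x)
        Complex.continuous_conj.measurable] with p hp hp'
      exact ⟨hp, hp'⟩
    rw [integral_pos_iff_support_of_nonneg_ae]
    · have hsub : (PO_A ρ ×ˢ PO_A ρc) ∩ {p : ℂ × ℂ | p.1 ≠ p.2} ⊆
          Function.support fun p => PO_D ρ p - PO_D (PO_pol ρ) p := by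
        rintro p ⟨⟨hp1, hp2⟩, hp3⟩
        refine (PO_pos ρ hp3 hp1.1 hp2.1 hp1.2 ?_).ne'
        have := hp2.2
        simp only [hρc, Complex.conj_conj] at this
        exact this
      have h4 : volume (PO_A ρ ×ˢ PO_A ρc) ≠ 0 := by
        rw [Measure.volume_eq_prod, Measure.prod_prod]
        exact mul_ne_zero hA hB
      have h5 : volume ((PO_A ρ ×ˢ PO_A ρc) ∩ {p : ℂ × ℂ | p.1 ≠ p.2}) =
          volume (PO_A ρ ×ˢ PO_A ρc) := by
        refine measure_inter_conull ?_
        have : ∀ᵐ p : ℂ × ℂ, p.1 ≠ p.2 := hae.mono fun p hp => hp.1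
        exact this
      refine lt_of_lt_of_le (pos_iff_ne_zero.2 ?_) (measure_mono hsub)
      rw [h5]
      exact h4
    · filter_upwards [hae] with p hp
      exact PO_nonneg ρ hp.1 hp.2
    · exact hi.sub hi'
  rw [integral_sub hi hi', he, he'] at hpos
  unfold En
  have hpi : 0 < 1 / (4 * Real.pi) := by positivity
  nlinarith

end

end Pool.Agent.Lib_helper68.MC
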