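import Pool.Agent.Lib_helper37.MC.UC
import Pool.Agent.Lib_helper51.MC.RE
import Pool.Agent.Lib_helper4.MC.TR
import Pool.Agent.Lib_helper68.MC.DefsD

/-! Project MC (MP_b08f5f_an), blocks TB and HL: the tail of the energy. -/

set_option autoImplicit false

namespace Pool.Agent.Lib_helper68.MC

open MeasureTheory Filter Topology Set
open scoped ComplexConjugate ENNReal NNReal
open Pool.Agent.Lib_helper25.PV (Conf vel Motion centre inertia NC VFlow)
open Pool.Agent.Lib_helper12.HE (ham rad nrm Gam sig shell turn one LimAvg)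

noncomputable section

theorem TB_ker_nonpos (x : ℂ) : ker 1 x ≤ 0 := by
  unfold ker
  have h1 : 0 ≤ Real.log (max ‖x‖ 1) := Real.log_nonneg (le_max_right _ _)
  have h2 : 0 ≤ 1 / (4 * Real.pi) := by positivity
  nlinarith [mul_nonneg h2 h1]

theorem TB_ker_zero : ker 1 0 = 0 := by
  unfold ker
  simp

/-- tail of the energy -/
theorem TB_main (K : ℝ) : ∃ b₀ : ℝ, ∀ᶠ N : ℕ in atTop,
    volume {z : Conf N | z ∈ Reg N 1 ∧ nrm z ∈ Gam N ∧ b₀ ≤ ham (nrm z) / (N : ℝ) ^ 2} ≤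
      ENNReal.ofReal (Real.exp (-(K * N))) := by
  have hpi := Real.pi_pos
  obtain ⟨C, hC, hUC⟩ := UC_main (f := fun _ => (0 : ℝ)) continuous_const
    (HasCompactSupport.zero) (α := 1) (s := 4 * Real.pi) one_pos (by positivity) (by linarith)
  set L : ℝ := Real.log ((∫ y, wt 1 (fun _ => (0 : ℝ)) y) + C * 1 ^ 2) with hL
  refine ⟨1 + (5 + L + K) / (4 * Real.pi), ?_⟩
  filter_upwards [eventually_ge_atTop 2] with N hN
  have hN1 : 1 ≤ N := by omega
  set b₀ : ℝ := 1 + (5 + L + K) / (4 * Real.pi) with hb₀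
  refine le_trans (measure_mono ?_) ((hUC 1 one_pos le_rfl N hN 5 0 (b₀ - 1)).trans ?_)
  · rintro z ⟨hz, hy, hb⟩
    refine ⟨?_, by simp, ?_⟩
    · have := TR_mom hN1 one_pos hz
      linarith
    · have h1 := (TR_ham hN1 one_pos hz hy).1
      have h2 := RE_ham hN1 z 1 one_pos
      rw [TB_ker_zero] at h2
      have h3 : (∑ i, ∑ j, ker 1 (z i - z j)) / (N : ℝ) ^ 2 ≤ 0 := by
        refine div_nonpos_of_nonpos_of_nonneg ?_ (by positivity)
        exact Finset.sum_nonpos fun i _ => Finset.sum_nonpos fun j _ => TB_ker_nonpos _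
      refine mul_le_mul_of_nonneg_left ?_ (by positivity)
      simp only [zero_div, sub_zero] at h2
      linarith
  · refine ENNReal.ofReal_le_ofReal (Real.exp_le_exp.2 ?_)
    have h4 : 4 * Real.pi * (b₀ - 1) = 5 + L + K := by
      rw [hb₀]
      field_simp
      ring
    rw [h4]
    have : (N : ℝ) * (1 * 5 - 0 - (5 + L + K) + L) = -(K * N) := by ring
    rw [← hL, this]

/-- the energy is bounded below -/
theorem HL_main {N : ℕ} (hN : 1 ≤ N) {y : Conf N} (hy : y ∈ Gam N) :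
    -1 ≤ ham y / (N : ℝ) ^ 2 := by
  have hN0 : (0 : ℝ) < N := by exact_mod_cast hN
  have hpi := Real.pi_gt_three
  have hlog : ∀ x : ℂ, Real.log ‖x‖ ≤ ‖x‖ ^ 2 / 2 := by
    intro x
    have h1 := Real.log_le_self (sq_nonneg ‖x‖)
    rw [Real.log_pow] at h1
    push_cast at h1
    linarith
  have hsum : ∑ i, ‖y i‖ ^ 2 = (N : ℝ) := by
    have h1 := hy.2.2
    rwa [div_eq_iff hN0.ne', one_mul] at h1
  have h1 : ∑ i, ∑ j ∈ Finset.univ.erase i, Real.log ‖y i - y j‖ ≤ 2 * (N : ℝ) ^ 2 := by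
    calc ∑ i, ∑ j ∈ Finset.univ.erase i, Real.log ‖y i - y j‖
        ≤ ∑ i, ∑ j ∈ Finset.univ.erase i, (‖y i‖ ^ 2 + ‖y j‖ ^ 2) := by
          refine Finset.sum_le_sum fun i _ => Finset.sum_le_sum fun j _ => ?_
          refine (hlog _).trans ?_
          have h2 := norm_sub_le (y i) (y j)
          have h3 : ‖y i - y j‖ ^ 2 ≤ (‖y i‖ + ‖y j‖) ^ 2 :=
            pow_le_pow_left₀ (norm_nonneg _) h2 2
          nlinarith [sq_nonneg (‖y i‖ - ‖y j‖)]
      _ ≤ ∑ i, ∑ j, (‖y i‖ ^ 2 + ‖y j‖ ^ 2) := by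
          refine Finset.sum_le_sum fun i _ => ?_
          exact Finset.sum_le_sum_of_subset_of_nonneg (Finset.subset_univ _)
            fun j _ _ => by positivity
      _ = 2 * (N : ℝ) ^ 2 := by
          simp only [Finset.sum_add_distrib, Finset.sum_const, Finset.card_univ,
            Fintype.card_fin, nsmul_eq_mul, hsum, ← Finset.mul_sum]
          ring
  rw [le_div_iff₀ (by positivity)]
  unfold ham
  have h5 : 0 < 1 / (4 * Real.pi) := by positivity
  have h6 : 1 / (4 * Real.pi) ≤ 1 / 12 := by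
    apply one_div_le_one_div_of_le (by norm_num)
    linarith
  have h7 : (1 / (4 * Real.pi)) * ∑ i, ∑ j ∈ Finset.univ.erase i, Real.log ‖y i - y j‖ ≤
      (1 / (4 * Real.pi)) * (2 * (N : ℝ) ^ 2) := mul_le_mul_of_nonneg_left h1 h5.le
  have h8 : (1 / (4 * Real.pi)) * (2 * (N : ℝ) ^ 2) ≤ 1 / 12 * (2 * (N : ℝ) ^ 2) :=
    mul_le_mul_of_nonneg_right h6 (by positivity)
  nlinarith [sq_nonneg (N : ℝ)]

end

end Pool.Agent.Lib_helper68.MC
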