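import Pool.Agent.Lib_helper89.MC.EN
import Pool.Agent.Lib_helper88.MC.MX
import Pool.Agent.Lib_helper72.MC.GE
import Pool.Agent.Lib_helper65.MC.GA
import Pool.Agent.Lib_helper36.MC.CX
import Pool.Agent.Lib_helper42.MC.DS
import Pool.Agent.Lib_helper38.MC.FA
import Pool.Agent.Lib_helper68.MC.DefsD

/-! Project MC (MP_b08f5f_an), identification for all windows: block WI. -/

set_option autoImplicit false

namespace Pool.Agent.Lib_helper68.MC

open MeasureTheory Filter Topology Set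
open scoped ComplexConjugate ENNReal NNReal

noncomputable section

theorem WI_En_congr {ρ σ : ℂ → ℝ} (h : ρ =ᵐ[volume] σ) : En ρ ρ = En σ σ := by
  unfold En
  congr 1
  refine integral_congr_ae ?_
  have h1 := (Measure.quasiMeasurePreserving_fst (μ := (volume : Measure ℂ))
    (ν := (volume : Measure ℂ))).ae_eq_comp h
  have h2 := (Measure.quasiMeasurePreserving_snd (μ := (volume : Measure ℂ))
    (ν := (volume : Measure ℂ))).ae_eq_comp h
  filter_upwards [h1, h2] with p k1 k2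
  simp only [Function.comp_apply] at k1 k2
  rw [k1, k2]

theorem WI_Sent_congr {ρ σ : ℂ → ℝ} (h : ρ =ᵐ[volume] σ) : Sent ρ = Sent σ := by
  unfold Sent
  congr 1
  refine integral_congr_ae ?_
  filter_upwards [h] with x hx
  rw [hx]

/-- the mixture with the Gaussian that has a prescribed energy -/
theorem WI_path {ρ : ℂ → ℝ} (h : Dens ρ) {e : ℝ} (hne : En ρ ρ ≠ e)
    (he : e ∈ uIcc (En ρ ρ) (En gau gau)) :
    ∃ t : ℝ, 0 < t ∧ t ≤ 1 ∧ En (mix t ρ gau) (mix t ρ gau) = e := by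
  obtain ⟨gd, gm, -, -⟩ := GA_dens
  set F : ℝ → ℝ := fun t => (1 - t) ^ 2 * En ρ ρ + 2 * t * (1 - t) * En ρ gau +
      t ^ 2 * En gau gau with hF
  have hc : Continuous F := by rw [hF]; fun_prop
  have h0 : F 0 = En ρ ρ := by simp [hF]
  have h1 : F 1 = En gau gau := by simp [hF]
  have := intermediate_value_uIcc (a := 0) (b := 1) (f := F) hc.continuousOn
  rw [h0, h1] at this
  obtain ⟨t, ht, hte⟩ := this he
  rw [uIcc_of_le zero_le_one] at ht
  refine ⟨t, lt_of_le_of_ne ht.1 ?_, ht.2, ?_⟩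
  · rintro rfl
    exact hne (by rw [← h0, hte])
  · rw [EN_mix h gd]
    exact hte

/-- mixing with the Gaussian raises the entropy -/
theorem WI_gain {ρ : ℂ → ℝ} (h : Dens ρ) (hm : mo ρ ≤ 1) (hne : ¬ ρ =ᵐ[volume] gau) {t : ℝ}
    (ht : 0 < t) (ht1 : t ≤ 1) :
    Dens (mix t ρ gau) ∧ mo (mix t ρ gau) ≤ 1 ∧ Sent ρ < Sent (mix t ρ gau) := by
  obtain ⟨gd, gm, -, -⟩ := GA_dens
  refine ⟨MX_dens h gd ht.le ht1, ?_, ?_⟩
  · rw [MX_mo h gd, gm]
    nlinarith
  · have h1 := GA_max h hm hne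
    have h2 := MX_sent h gd ht.le ht1
    nlinarith

theorem WI_max {e : ℝ} {ρ : ℂ → ℝ} (h : Eqm e ρ) {ρ' : ℂ → ℝ} (h' : Dens ρ') (hm : mo ρ' ≤ 1)
    (hE : En ρ' ρ' = e) : Sent ρ' ≤ Sent ρ := by
  by_cases hne : ρ' =ᵐ[volume] ρ
  · exact (WI_Sent_congr hne).le
  · have := h.best ρ' h' hm hE.le hne
    rw [hE] at this
    simp only [sub_self, mul_zero, sub_zero] at this
    exact this.le

/-- a density whose energy is on the other side of `e` than the Gaussian's -/
theorem WI_cross {e : ℝ} {ρ : ℂ → ℝ} (h : Eqm e ρ) {ρ' : ℂ → ℝ} (h' : Dens ρ') (hm : mo ρ' ≤ 1)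
    (hne : En ρ' ρ' ≠ e) (he : e ∈ uIcc (En ρ' ρ') (En gau gau)) : Sent ρ' < Sent ρ := by
  obtain ⟨t, ht, ht1, hte⟩ := WI_path h' hne he
  have hng : ¬ ρ' =ᵐ[volume] gau := fun k => by
    have := WI_En_congr k
    rw [this, uIcc_self, mem_singleton_iff] at he
    exact hne (by rw [this, he])
  obtain ⟨k1, k2, k3⟩ := WI_gain h' hm hng ht ht1
  exact k3.trans_le (WI_max h k1 k2 hte)

theorem WI_gau {ρ : ℂ → ℝ} (h : Eqm (En gau gau) ρ) : ρ =ᵐ[volume] gau := by
  obtain ⟨gd, gm, -, -⟩ := GA_dens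
  by_contra hne
  have h1 := GA_max h.dens h.mo_eq.le hne
  have h2 := h.best gau gd gm.le le_rfl fun k => hne k.symm
  simp only [sub_self, mul_zero, sub_zero] at h2
  linarith

theorem WI_comp {a b : ℝ} (hab : a < b) (hb : e0 < b) {ρ : ℂ → ℝ}
    (h : Eqm (max a (min b (En gau gau))) ρ) {κ : ℝ} (hκ : 0 < κ) :
    ∃ ρ' : ℂ → ℝ, Dens ρ' ∧ mo ρ' = 1 ∧ mean ρ' = 0 ∧ a < En ρ' ρ' ∧ En ρ' ρ' < b ∧
      Sent ρ - κ < Sent ρ' := by
  obtain ⟨gd, gm, gc, -⟩ := GA_dens
  rcases le_or_gt (En gau gau) a with hG | hG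
  · rw [max_eq_left ((min_le_right _ _).trans hG)] at h
    set l : ℝ := min (κ / 4) (2 * Real.pi * (b - a)) with hl
    have hpi := Real.pi_pos
    have hl0 : 0 < l := lt_min (by positivity) (by
      have : 0 < b - a := by linarith
      positivity)
    have hl1 : l ≤ κ / 4 := min_le_left _ _
    have hl2 : l ≤ 2 * Real.pi * (b - a) := min_le_right _ _
    obtain ⟨d1, d2, d3, -, d5⟩ := GE_dil h.dens (Real.exp_pos (-l))
    rw [Real.log_exp] at d2 d5
    rw [h.en_eq] at d5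
    rw [h.mo_eq, mul_one] at d3
    have e1 : En (dil (Real.exp (-l)) ρ) (dil (Real.exp (-l)) ρ) = a + l / (4 * Real.pi) := by
      rw [d5]
      ring
    have e2 : 0 < l / (4 * Real.pi) := by positivity
    have e3 : l / (4 * Real.pi) ≤ (b - a) / 2 := by
      rw [div_le_iff₀ (by positivity)]
      linarith
    have e4 : mo (dil (Real.exp (-l)) ρ) ≤ 1 := by
      rw [d3, ← Real.exp_nat_mul]
      refine Real.exp_le_one_iff.2 ?_
      push_cast
      linarith
    obtain ⟨ρ', k1, k2, k3, k4, k5, k6⟩ := FA_fix d1 e4 (a := a) (b := b) (s := Sent ρ - κ)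
      (by rw [e1]; linarith) (by rw [e1]; linarith) (by rw [d2]; linarith)
    exact ⟨ρ', k1, k2, k3, k4, k5, k6⟩
  · rcases le_or_gt b (En gau gau) with hG' | hG'
    · rw [min_eq_left hG', max_eq_right hab.le] at h
      obtain ⟨δ, g1, g2, g3, g4⟩ := DS_disc
      -- small mixtures
      have hc : Continuous fun t : ℝ => (1 - t) ^ 2 * En ρ ρ + 2 * t * (1 - t) * En ρ δ +
          t ^ 2 * En δ δ := by fun_prop
      have h0 : Tendsto (fun t : ℝ => (1 - t) ^ 2 * En ρ ρ + 2 * t * (1 - t) * En ρ δ +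
          t ^ 2 * En δ δ) (𝓝[>] 0) (𝓝 b) := by
        have := (hc.tendsto 0).mono_left (nhdsWithin_le_nhds (s := Ioi 0))
        simpa [h.en_eq] using this
      have hc2 : Continuous fun t : ℝ => (1 - t) * Sent ρ + t * Sent δ := by fun_prop
      have h2 : Tendsto (fun t : ℝ => (1 - t) * Sent ρ + t * Sent δ) (𝓝[>] 0) (𝓝 (Sent ρ)) := by
        have := (hc2.tendsto 0).mono_left (nhdsWithin_le_nhds (s := Ioi 0))
        simpa using this
      have hev : ∀ᶠ t in 𝓝[>] (0 : ℝ), 0 < t ∧ t < 1 ∧ a < (1 - t) ^ 2 * En ρ ρ +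
          2 * t * (1 - t) * En ρ δ + t ^ 2 * En δ δ ∧
          Sent ρ - κ < (1 - t) * Sent ρ + t * Sent δ := by
        filter_upwards [self_mem_nhdsWithin, Ioo_mem_nhdsGT (zero_lt_one' ℝ),
          h0.eventually (lt_mem_nhds hab),
          h2.eventually (lt_mem_nhds (show Sent ρ - κ < Sent ρ by linarith))]
          with t k1 k2 k3 k4
        exact ⟨k1, k2.2, k3, k4⟩
      obtain ⟨t, t0, t1, t2, t3⟩ := hev.exists
      have m1 := MX_dens h.dens g1 t0.le t1.le
      have m2 : mo (mix t ρ δ) ≤ 1 := by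
        rw [MX_mo h.dens g1, h.mo_eq, g2]
        linarith
      have m3 := MX_sent h.dens g1 t0.le t1.le
      have m4 : En (mix t ρ δ) (mix t ρ δ) < b := by
        rw [EN_mix h.dens g1]
        have k := CX_mid h.dens g1
        rw [h.en_eq, g4] at k ⊢
        have : 2 * t * (1 - t) * En ρ δ ≤ t * (1 - t) * (b + e0) := by
          have h3 : 0 ≤ t * (1 - t) := mul_nonneg t0.le (by linarith)
          nlinarith
        nlinarith [mul_pos t0 (sub_pos.2 hb)]
      obtain ⟨ρ', k1, k2, k3, k4, k5, k6⟩ := FA_fix m1 m2 (a := a) (b := b) (s := Sent ρ - κ)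
        (by rw [EN_mix h.dens g1]; exact t2) m4 (by linarith)
      exact ⟨ρ', k1, k2, k3, k4, k5, k6⟩
    · rw [min_eq_right hG'.le, max_eq_right hG.le] at h
      refine ⟨gau, gd, gm, gc, hG, hG', ?_⟩
      rw [← WI_Sent_congr (WI_gau h)]
      linarith

theorem WI_best {a b : ℝ} (hab : a < b) (hb : e0 < b) {ρ : ℂ → ℝ}
    (h : Eqm (max a (min b (En gau gau))) ρ) {ρ' : ℂ → ℝ} (h' : Dens ρ') (hm : mo ρ' ≤ 1)
    (hE : En ρ' ρ' ≤ b) (hne : ¬ ρ' =ᵐ[volume] ρ) :
    Sent ρ' - 8 * Real.pi * max (a - En ρ' ρ') 0 < Sent ρ := by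
  have hpi := Real.pi_pos
  have hmax : 0 ≤ 8 * Real.pi * max (a - En ρ' ρ') 0 := by positivity
  rcases le_or_gt (En gau gau) a with hG | hG
  · rw [max_eq_left ((min_le_right _ _).trans hG)] at h
    rcases le_or_gt (En ρ' ρ') a with hl | hl
    · rw [max_eq_left (by linarith)]
      exact h.best ρ' h' hm hl hne
    · have := WI_cross h h' hm hl.ne' (by
        rw [uIcc_of_ge (by linarith)]
        exact ⟨hG, hl.le⟩)
      linarith
  · rcases le_or_gt b (En gau gau) with hG' | hG'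
    · rw [min_eq_left hG', max_eq_right hab.le] at h
      rcases hE.eq_or_lt with hE | hE
      · have := h.best ρ' h' hm hE.le hne
        rw [hE] at this
        simp only [sub_self, mul_zero, sub_zero] at this
        linarith
      · have := WI_cross h h' hm hE.ne (by
          rw [uIcc_of_le (by linarith)]
          exact ⟨hE.le, hG'⟩)
        linarith
    · rw [min_eq_right hG'.le, max_eq_right hG.le] at h
      have hg := WI_gau h
      have h1 := GA_max h' hm fun k => hne (k.trans hg.symm)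
      rw [← WI_Sent_congr hg] at h1
      linarith

/-- uniqueness -/
theorem WI_unique {e : ℝ} {ρ ρ' : ℂ → ℝ} (h : Eqm e ρ) (h' : Dens ρ') (hm : mo ρ' ≤ 1)
    (hE : En ρ' ρ' = e) (hne : ¬ ρ' =ᵐ[volume] ρ) : Sent ρ' < Sent ρ := by
  have := h.best ρ' h' hm hE.le hne
  rw [hE] at this
  simpa using this

/-- `ρ` has the largest entropy in the whole window -/
theorem WI_window {a b : ℝ} (hab : a < b) (hb : e0 < b) {ρ : ℂ → ℝ}
    (h : Eqm (max a (min b (En gau gau))) ρ) {ρ' : ℂ → ℝ} (h' : Dens ρ') (hm : mo ρ' ≤ 1)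
    (ha : a ≤ En ρ' ρ') (hE : En ρ' ρ' ≤ b) (hne : ¬ ρ' =ᵐ[volume] ρ) : Sent ρ' < Sent ρ := by
  have := WI_best hab hb h h' hm hE hne
  rw [max_eq_right (by linarith)] at this
  simpa using this

end

end Pool.Agent.Lib_helper68.MC
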